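import Pool.Agent.Helper17.SA.St2

set_option autoImplicit false

namespace Pool.Agent.Helper6.SA

open Equiv Pool.Agent.Helper17.SA

theorem dd_le (a b s : ℕ) : dd a b ≤ s ↔ a / 2 ^ s = b / 2 ^ s := by
  unfold dd
  rw [Nat.size_le, ← Nat.div_eq_zero_iff_lt (Nat.two_pow_pos s), ← Nat.shiftRight_eq_div_pow,
    Nat.shiftRight_xor_distrib, Nat.xor_eq_zero_iff, Nat.shiftRight_eq_div_pow,
    Nat.shiftRight_eq_div_pow]

theorem dd_eq_of (a b c d : ℕ) (h : ∀ s, a / 2 ^ s = b / 2 ^ s ↔ c / 2 ^ s = d / 2 ^ s) :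
    dd a b = dd c d := by
  apply le_antisymm
  · rw [dd_le, h, ← dd_le]
  · rw [dd_le, ← h, ← dd_le]

theorem xor_div (a c s v : ℕ) (hc : c < 2 ^ v) (hs : v ≤ s) : (a ^^^ c) / 2 ^ s = a / 2 ^ s := by
  rw [← Nat.shiftRight_eq_div_pow, Nat.shiftRight_xor_distrib, Nat.shiftRight_eq_div_pow,
    Nat.shiftRight_eq_div_pow, Nat.div_eq_of_lt (hc.trans_le (Nat.pow_le_pow_right (by norm_num) hs)),
    Nat.xor_zero]

theorem div_mono (a b s v : ℕ) (hs : s ≤ v) (h : a / 2 ^ s = b / 2 ^ s) : a / 2 ^ v = b / 2 ^ v := by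
  obtain ⟨k, rfl⟩ := Nat.exists_eq_add_of_le hs
  rw [pow_add, ← Nat.div_div_eq_div_mul, ← Nat.div_div_eq_div_mul, h]

/-- the twist by `c` on the last block -/
def tw (m v c : ℕ) (i : ℕ) : ℕ := if i / 2 ^ v = m / 2 ^ v then i ^^^ c else i

theorem tw_div (m v c i : ℕ) (hc : c < 2 ^ v) : tw m v c i / 2 ^ v = i / 2 ^ v := by
  unfold tw
  split_ifs with h
  · exact xor_div i c v v hc le_rfl
  · rfl

theorem tw_lt (m v c i : ℕ) (hc : c < 2 ^ v) (hv : 2 ^ v ∣ m + 1) (hi : i < m + 1) :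
    tw m v c i < m + 1 := by
  unfold tw
  split_ifs with h
  · have h1 := xor_div i c v v hc le_rfl
    rw [h] at h1
    obtain ⟨u, hu⟩ := hv
    have hp := Nat.two_pow_pos v
    have h2 : m / 2 ^ v < u := by
      rw [Nat.div_lt_iff_lt_mul hp, mul_comm]
      omega
    have h3 : (i ^^^ c) / 2 ^ v < u := by rw [h1]; exact h2
    rw [Nat.div_lt_iff_lt_mul hp, mul_comm] at h3
    omega
  · exact hi

theorem tw_tw (m v c i : ℕ) (hc : c < 2 ^ v) : tw m v c (tw m v c i) = i := by
  have h1 := tw_div m v c i hc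
  by_cases h : i / 2 ^ v = m / 2 ^ v
  · have h2 : tw m v c i / 2 ^ v = m / 2 ^ v := h1.trans h
    have h3 : tw m v c i = i ^^^ c := by unfold tw; rw [if_pos h]
    rw [h3] at h2 ⊢
    unfold tw
    rw [if_pos h2, Nat.xor_assoc, Nat.xor_self, Nat.xor_zero]
  · have h3 : tw m v c i = i := by unfold tw; rw [if_neg h]
    rw [h3, h3]

theorem tw_dd (m v c i j : ℕ) (hc : c < 2 ^ v) : dd (tw m v c i) (tw m v c j) = dd i j := by
  by_cases hi : i / 2 ^ v = m / 2 ^ v <;> by_cases hj : j / 2 ^ v = m / 2 ^ v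
  · have h3 : tw m v c i = i ^^^ c := by unfold tw; rw [if_pos hi]
    have h4 : tw m v c j = j ^^^ c := by unfold tw; rw [if_pos hj]
    rw [h3, h4]
    unfold dd
    congr 1
    rw [Nat.xor_comm j c, Nat.xor_assoc, ← Nat.xor_assoc c c j, Nat.xor_self, Nat.zero_xor]
  · have h3 : tw m v c i = i ^^^ c := by unfold tw; rw [if_pos hi]
    have h4 : tw m v c j = j := by unfold tw; rw [if_neg hj]
    rw [h3, h4]
    apply dd_eq_of
    intro s
    rcases le_total v s with hs | hs
    · rw [xor_div i c s v hc hs]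
    · constructor
      · intro h
        have := div_mono _ _ s v hs h
        rw [xor_div i c v v hc le_rfl] at this
        exact absurd (this.symm.trans hi) hj
      · intro h
        have := div_mono _ _ s v hs h
        exact absurd (this.symm.trans hi) hj
  · have h3 : tw m v c j = j ^^^ c := by unfold tw; rw [if_pos hj]
    have h4 : tw m v c i = i := by unfold tw; rw [if_neg hi]
    rw [h3, h4]
    apply dd_eq_of
    intro s
    rcases le_total v s with hs | hs
    · rw [xor_div j c s v hc hs]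
    · constructor
      · intro h
        have := div_mono _ _ s v hs h
        rw [xor_div j c v v hc le_rfl] at this
        exact absurd (this.trans hj) hi
      · intro h
        have := div_mono _ _ s v hs h
        exact absurd (this.trans hj) hi
  · have h3 : tw m v c i = i := by unfold tw; rw [if_neg hi]
    have h4 : tw m v c j = j := by unfold tw; rw [if_neg hj]
    rw [h3, h4]

/-- the twist as a permutation -/
def tp (m v c : ℕ) (hc : c < 2 ^ v) (hv : 2 ^ v ∣ m + 1) : Perm (Fin (m + 1)) :=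
  Function.Involutive.toPerm (fun i => ⟨tw m v c i, tw_lt m v c i hc hv i.2⟩)
    (fun i => Fin.ext (tw_tw m v c i hc))

theorem tp_mem (m v c : ℕ) (hc : c < 2 ^ v) (hv : 2 ^ v ∣ m + 1) : tp m v c hc hv ∈ Q0 (m + 1) :=
  fun i j => tw_dd m v c i j hc

/-- extension by a fixed point -/
def ex (m : ℕ) (z : Perm (Fin m)) : Perm (Fin (m + 1)) :=
  finSuccEquivLast.trans ((Equiv.optionCongr z).trans finSuccEquivLast.symm)

theorem ex_cast (m : ℕ) (z : Perm (Fin m)) (i : Fin m) : ex m z i.castSucc = (z i).castSucc := by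
  simp [ex]

theorem ex_last (m : ℕ) (z : Perm (Fin m)) : ex m z (Fin.last m) = Fin.last m := by
  simp [ex]

theorem card_block (m s q : ℕ) :
    (Finset.univ.filter (fun j : Fin m => (j : ℕ) / 2 ^ s = q)).card
      = min m (2 ^ s * (q + 1)) - 2 ^ s * q := by
  rw [← Finset.card_map Fin.valEmbedding]
  have h : (Finset.univ.filter (fun j : Fin m => (j : ℕ) / 2 ^ s = q)).map Fin.valEmbedding
      = Finset.Ico (2 ^ s * q) (min m (2 ^ s * (q + 1))) := by
    ext j
    simp only [Finset.mem_map, Finset.mem_filter, Finset.mem_univ, true_and,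
      Fin.valEmbedding_apply, Finset.mem_Ico, lt_min_iff]
    have hp := Nat.two_pow_pos s
    have key : j / 2 ^ s = q ↔ 2 ^ s * q ≤ j ∧ j < 2 ^ s * (q + 1) := by
      constructor
      · rintro rfl
        exact ⟨Nat.mul_div_le j _, Nat.lt_mul_div_succ j hp⟩
      · rintro ⟨h1, h2⟩
        have h3 : q ≤ j / 2 ^ s := by
          rw [Nat.le_div_iff_mul_le hp, mul_comm]
          exact h1
        have h4 : j / 2 ^ s < q + 1 := by
          rw [Nat.div_lt_iff_lt_mul hp, mul_comm]
          exact h2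
        omega
    constructor
    · rintro ⟨j', hj', rfl⟩
      obtain ⟨h1, h2⟩ := key.1 hj'
      exact ⟨h1, j'.2, h2⟩
    · rintro ⟨h1, h2, h3⟩
      exact ⟨⟨j, h2⟩, key.2 ⟨h1, h3⟩, rfl⟩
  rw [h, Nat.card_Ico]

theorem block_iff (m s i : ℕ) (hi : i < m) :
    (Finset.univ.filter (fun j : Fin m => (j : ℕ) / 2 ^ s = i / 2 ^ s)).card = 2 ^ s ↔
      ¬ (i / 2 ^ s = m / 2 ^ s) := by
  rw [card_block]
  have hp := Nat.two_pow_pos s
  have e1 : 2 ^ s * (i / 2 ^ s + 1) = 2 ^ s * (i / 2 ^ s) + 2 ^ s := by ring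
  have hmi : i / 2 ^ s ≤ m / 2 ^ s := Nat.div_le_div_right hi.le
  have f1 := Nat.mul_div_le m (2 ^ s)
  have f2 := Nat.lt_mul_div_succ m hp
  constructor
  · intro h h2
    rw [h2] at h e1
    rw [h2.symm] at h
    rw [← h2] at f1 f2
    have : min m (2 ^ s * (i / 2 ^ s + 1)) ≤ m := min_le_left _ _
    have e2 : 2 ^ s * (i / 2 ^ s + 1) = 2 ^ s * (i / 2 ^ s) + 2 ^ s := by ring
    omega
  · intro h
    have h3 : i / 2 ^ s + 1 ≤ m / 2 ^ s := by omega
    have h4 : 2 ^ s * (i / 2 ^ s + 1) ≤ m := (Nat.mul_le_mul_left _ h3).trans f1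
    rw [min_eq_right h4, e1]
    omega

theorem count_inv (m s : ℕ) (z : Perm (Fin m)) (hz : z ∈ Q0 m) (i : Fin m) :
    (Finset.univ.filter (fun j : Fin m => (j : ℕ) / 2 ^ s = ((z i : Fin m) : ℕ) / 2 ^ s)).card
      = (Finset.univ.filter (fun j : Fin m => (j : ℕ) / 2 ^ s = (i : ℕ) / 2 ^ s)).card := by
  symm
  apply Finset.card_bij (fun j _ => z j)
  · intro j hj
    simp only [Finset.mem_filter, Finset.mem_univ, true_and] at hj ⊢
    rw [← dd_le] at hj ⊢
    rw [hz j i]
    exact hj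
  · intro a _ b _ h
    exact z.injective h
  · intro j hj
    refine ⟨z.symm j, ?_, by simp⟩
    simp only [Finset.mem_filter, Finset.mem_univ, true_and] at hj ⊢
    rw [← dd_le] at hj ⊢
    have := hz (z.symm j) i
    rw [Equiv.apply_symm_apply] at this
    rw [← this]
    exact hj

theorem dd_last (m : ℕ) (z : Perm (Fin m)) (hz : z ∈ Q0 m) (i : Fin m) :
    dd ((z i : Fin m) : ℕ) m = dd (i : ℕ) m := by
  apply dd_eq_of
  intro s
  have h1 := block_iff m s ((z i : Fin m) : ℕ) (z i).2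
  have h2 := block_iff m s (i : ℕ) i.2
  rw [count_inv m s z hz i] at h1
  exact not_iff_not.1 (h1.symm.trans h2)

theorem dd_comm (a b : ℕ) : dd a b = dd b a := by
  unfold dd
  rw [Nat.xor_comm]

theorem ex_mem (m : ℕ) (z : Perm (Fin m)) (hz : z ∈ Q0 m) : ex m z ∈ Q0 (m + 1) := by
  intro i j
  induction i using Fin.lastCases with
  | last =>
    induction j using Fin.lastCases with
    | last => rw [ex_last]
    | cast j =>
      rw [ex_last, ex_cast, Fin.val_castSucc, Fin.val_castSucc, Fin.val_last, dd_comm,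
        dd_last m z hz j, dd_comm]
  | cast i =>
    induction j using Fin.lastCases with
    | last =>
      rw [ex_last, ex_cast, Fin.val_castSucc, Fin.val_castSucc, Fin.val_last, dd_last m z hz i]
    | cast j =>
      rw [ex_cast, ex_cast, Fin.val_castSucc, Fin.val_castSucc, Fin.val_castSucc,
        Fin.val_castSucc]
      exact hz i j

theorem step (m v : ℕ) (hv : 2 ^ v ∣ m + 1) :
    2 ^ v * Nat.card (Q0 m) ≤ Nat.card (Q0 (m + 1)) := by
  have h0 : 2 ^ v * Nat.card (Q0 m) = Nat.card (Fin (2 ^ v) × Q0 m) := by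
    rw [Nat.card_prod, Nat.card_fin]
  rw [h0]
  let F : Fin (2 ^ v) × Q0 m → Q0 (m + 1) := fun x =>
    ⟨tp m v x.1 x.1.2 hv * ex m x.2.1, mul_mem (tp_mem m v _ _ hv) (ex_mem m _ x.2.2)⟩
  apply Nat.card_le_card_of_injective F
  rintro ⟨c, z⟩ ⟨c', z'⟩ h
  have h1 : tp m v c c.2 hv * ex m z.1 = tp m v c' c'.2 hv * ex m z'.1 := congrArg Subtype.val h
  have h2 := congrArg (fun g : Perm (Fin (m + 1)) => ((g (Fin.last m) : Fin (m + 1)) : ℕ)) h1
  simp only [Perm.mul_apply, ex_last] at h2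
  have e : ∀ d : Fin (2 ^ v),
      ((tp m v d d.2 hv (Fin.last m) : Fin (m + 1)) : ℕ) = m ^^^ (d : ℕ) := by
    intro d
    change tw m v d (Fin.last m) = _
    unfold tw
    rw [Fin.val_last, if_pos rfl]
  rw [e, e] at h2
  have h3 : c = c' := Fin.ext (Nat.xor_right_injective h2)
  subst h3
  have h4 : ex m z.1 = ex m z'.1 := mul_left_cancel h1
  have h5 : z = z' := by
    apply Subtype.ext
    apply Equiv.ext
    intro i
    have h6 := congrArg (fun g : Perm (Fin (m + 1)) => g i.castSucc) h4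
    simp only [ex_cast] at h6
    exact Fin.castSucc_injective m h6
  rw [h5]

theorem pQB : StQB := by
  intro m
  induction m with
  | zero =>
    simp only [Nat.factorial_zero, padicValNat_one_right, pow_zero]
    exact Nat.card_pos
  | succ m ih =>
    rw [Nat.factorial_succ, padicValNat.mul (by omega) (Nat.factorial_ne_zero m), pow_add]
    calc 2 ^ padicValNat 2 (m + 1) * 2 ^ padicValNat 2 m.factorial
        ≤ 2 ^ padicValNat 2 (m + 1) * Nat.card (Q0 m) := Nat.mul_le_mul_left _ ih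
      _ ≤ Nat.card (Q0 (m + 1)) := step m _ pow_padicValNat_dvd

end Pool.Agent.Helper6.SA
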