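import Pool.Agent.Helper17.SA.St3

/-!
# Project SA (MP_21f9f3_al), module COL: size of a colour
-/

set_option autoImplicit false

namespace Pool.Agent.Helper6.SA

open Equiv Pool.Agent.Helper17.SA

theorem pCOL : StCOL := by
  intro A _ _ I T hI α hα
  rw [← Nat.card_prod]
  have h : ∀ β : {β : A // β ∈ I ∧ ∃ t ∈ T, ∃ t' ∈ T, β = t * α * t'},
      ∃ q : T × {t : A // t ∈ T ∧ t ∈ I}, (β : A) = q.1 * α * (q.1 : A)⁻¹ * q.2 := by
    rintro ⟨β, hβ, t, ht, t', ht', rfl⟩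
    refine ⟨(⟨t, ht⟩, ⟨t * t', T.mul_mem ht ht', ?_⟩), ?_⟩
    · have h1 : t * t' = (t * α * t⁻¹)⁻¹ * (t * α * t') := by group
      rw [h1]
      exact I.mul_mem (I.inv_mem (hI.conj_mem α hα t)) hβ
    · show t * α * t' = t * α * t⁻¹ * (t * t')
      group
  choose q hq using h
  refine Nat.card_le_card_of_injective q ?_
  intro β β' hb
  apply Subtype.ext
  rw [hq β, hq β', hb]

end Pool.Agent.Helper6.SA
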